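import Mathlib
import Pool.Agent.helper55.CircleCut

set_option autoImplicit false
open MeasureTheory

namespace Pool.Agent.Results.MP_ced1be_co.AllK

/-- `S` is a region cut off by a circle or a straight line of the plane: an open disc of positive
radius or an open half-plane. -/
def CutRegion (S : Set (EuclideanSpace ℝ (Fin 2))) : Prop :=
  (∃ (p : EuclideanSpace ℝ (Fin 2)) (r : ℝ), 0 < r ∧ S = Metric.ball p r) ∨
    (∃ (v : EuclideanSpace ℝ (Fin 2)) (c : ℝ), v ≠ 0 ∧
      S = {x : EuclideanSpace ℝ (Fin 2) | inner ℝ v x < c})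

/-- The pair `(α, β)` is good in the plane: for any two measurable sets of finite area there is a
region cut off by a circle or a line which has exactly the fraction `α` of the area of the first
set and exactly the fraction `β` of the area of the second. -/
def GoodPair (α β : ℝ) : Prop :=
  ∀ A₁ A₂ : Set (EuclideanSpace ℝ (Fin 2)),
    MeasurableSet A₁ → MeasurableSet A₂ → volume A₁ < ⊤ → volume A₂ < ⊤ →
    ∃ S : Set (EuclideanSpace ℝ (Fin 2)), CutRegion S ∧
      volume (A₁ ∩ S) = ENNReal.ofReal α * volume A₁ ∧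
      volume (A₂ ∩ S) = ENNReal.ofReal β * volume A₂

/-- For every integer `k ≥ 3` the pair `(1/k, 1/k)` is not good in the plane. -/
theorem result (k : ℕ) (hk : 3 ≤ k) : ¬ GoodPair (1 / (k : ℝ)) (1 / (k : ℝ)) := by
  intro h
  obtain ⟨A₁, A₂, hm1, hm2, hf1, hf2, hS⟩ := Pool.Agent.helper55.Circle.main k hk
  obtain ⟨S, hS1, hS2, hS3⟩ := h A₁ A₂ hm1 hm2 hf1 hf2
  have hk0 : (0 : ℝ) < k := by
    have : 0 < k := by omega
    exact_mod_cast this
  have hdiv : ∀ x : ENNReal, ENNReal.ofReal (1 / (k : ℝ)) * x = x / k := by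
    intro x
    rw [one_div, ENNReal.ofReal_inv_of_pos hk0, ENNReal.ofReal_natCast, ENNReal.div_eq_inv_mul]
  rw [hdiv] at hS2 hS3
  have h1 := hS S hS1 hS2
  rw [hS3] at h1
  exact lt_irrefl _ h1

end Pool.Agent.Results.MP_ced1be_co.AllK
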